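import Pool.Agent.Lib.MP_caca3f_an.Ext.Final
import Pool.Agent.Lib.MP_caca3f_an.Opt.FinalS
import Pool.Agent.Lib.MP_caca3f_an.Opt.Attain
import Pool.Agent.Lib.MP_caca3f_an.Sharp.Use
import Pool.Agent.Lib.MP_caca3f_an.Sharp.Gam

/-!
# Growth of the Euclidean distortion of a union of `k` subsets: the order is `k^(D-1)`

For every real `D > 1` there is a constant `C` with
`k^(D-1)/Γ(D) ≤ D (D+1)/2 (D+2)/3 … (D+k-1)/k ≤ U D k ≤ C k^(D-1)` for all integers `k ≥ 1`.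
For all real `D ≥ 1` the lower bound holds as well, and
`U D k ≤ 2·10^8 D^7 (1 + log k)^6 k^(D-1)`.
-/

namespace Pool.Agent.Results.MP_caca3f_an.OptimalGrowth

open scoped ENNReal

universe u

/-- `X` maps into a (real) Hilbert space with distortion at most `D`: there are a map `f` and a
scale `s > 0` with `s d(x,y) ≤ ‖f x - f y‖ ≤ s D d(x,y)`. -/
def EmbedsWithDistortion (X : Type u) [MetricSpace X] (D : ℝ) : Prop :=
  ∃ (H : Type u) (_ : NormedAddCommGroup H) (_ : InnerProductSpace ℝ H) (_ : CompleteSpace H)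
    (f : X → H) (s : ℝ), 0 < s ∧
      ∀ x y, s * dist x y ≤ ‖f x - f y‖ ∧ ‖f x - f y‖ ≤ s * D * dist x y

/-- The Euclidean distortion `c₂(X) ∈ [1, ∞]`. -/
noncomputable def c2 (X : Type u) [MetricSpace X] : ℝ≥0∞ :=
  ⨅ (D : ℝ) (_ : 1 ≤ D) (_ : EmbedsWithDistortion X D), ENNReal.ofReal D

/-- `U_D(k)`: the supremum of `c₂(A₁ ∪ … ∪ A_k)` over all metric spaces `X` and all subsets
`A₁, …, A_k` of `X` with `c₂(A_i) ≤ D`. -/
noncomputable def U (D : ℝ) (k : ℕ) : ℝ≥0∞ :=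
  ⨆ (X : Type u) (_ : MetricSpace X) (A : Fin k → Set X)
    (_ : ∀ i, c2 (A i) ≤ ENNReal.ofReal D), c2 (⋃ i, A i : Set X)

theorem EmbedsWithDistortion.mono {X : Type u} [MetricSpace X] {D D' : ℝ}
    (h : EmbedsWithDistortion X D) (hD : D ≤ D') : EmbedsWithDistortion X D' := by
  obtain ⟨H, i1, i2, i3, f, s, hs, hf⟩ := h
  refine ⟨H, i1, i2, i3, f, s, hs, fun x y => ⟨(hf x y).1, (hf x y).2.trans ?_⟩⟩
  exact mul_le_mul_of_nonneg_right (mul_le_mul_of_nonneg_left hD hs.le) dist_nonneg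

theorem c2_le {X : Type u} [MetricSpace X] {D : ℝ} (hD : 1 ≤ D) (h : EmbedsWithDistortion X D) :
    c2 X ≤ ENNReal.ofReal D :=
  iInf_le_of_le D (iInf_le_of_le hD (iInf_le_of_le h le_rfl))

theorem embeds_of_c2_lt {X : Type u} [MetricSpace X] {D : ℝ} (h : c2 X < ENNReal.ofReal D) :
    EmbedsWithDistortion X D := by
  unfold c2 at h
  rw [iInf_lt_iff] at h
  obtain ⟨D', h⟩ := h
  rw [iInf_lt_iff] at h
  obtain ⟨h1, h⟩ := h
  rw [iInf_lt_iff] at h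
  obtain ⟨h2, h⟩ := h
  exact h2.mono (by
    by_contra hcon
    push Not at hcon
    exact absurd (ENNReal.ofReal_le_ofReal hcon.le) (not_le.mpr h))

/-- the upper bound -/
noncomputable def ub (D : ℝ) (k : ℕ) : ℝ :=
  2 * 10 ^ 8 * D ^ 7 * (1 + Real.log k) ^ 6 * (k : ℝ) ^ (D - 1)

theorem one_le_ub (D : ℝ) (hD : 1 ≤ D) (k : ℕ) (hk : 1 ≤ k) : 1 ≤ ub D k := by
  have hk1 : (1 : ℝ) ≤ k := by exact_mod_cast hk
  have hl : 0 ≤ Real.log k := Real.log_nonneg hk1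
  have h1 : (1 : ℝ) ≤ D ^ 7 := one_le_pow₀ hD
  have h2 : (1 : ℝ) ≤ (1 + Real.log k) ^ 6 := one_le_pow₀ (by linarith)
  have h3 : (1 : ℝ) ≤ (k : ℝ) ^ (D - 1) := Real.one_le_rpow hk1 (by linarith)
  unfold ub
  have h4 : (1 : ℝ) ≤ 2 * 10 ^ 8 * D ^ 7 := by nlinarith
  exact one_le_mul_of_one_le_of_one_le (one_le_mul_of_one_le_of_one_le h4 h2) h3

theorem upper (D : ℝ) (hD : 1 ≤ D) (k : ℕ) (hk : 1 ≤ k) :
    U.{u} D k ≤ ENNReal.ofReal (ub D k) := by
  refine iSup_le fun X => iSup_le fun _ => iSup_le fun A => iSup_le fun hA => ?_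
  have hk0 : (0 : ℝ) < k := by exact_mod_cast hk
  have key : ∀ ε : ℝ, 0 < ε → c2 (⋃ i, A i : Set X) ≤ ENNReal.ofReal (ub (D + ε) k) := by
    intro ε hε
    set D' := D + ε with hD'
    have hD'1 : 1 ≤ D' := by linarith
    apply c2_le (one_le_ub D' hD'1 k hk)
    have hemb : ∀ i, EmbedsWithDistortion (A i) D' := fun i =>
      embeds_of_c2_lt ((hA i).trans_lt ((ENNReal.ofReal_lt_ofReal_iff (by linarith)).mpr
        (by linarith)))
    set B : Fin k → Set (⋃ i, A i : Set X) := fun i => {x | x.1 ∈ A i} with hB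
    have hcov : ⋃ i, B i = Set.univ := by
      ext x
      obtain ⟨i, hi⟩ := Set.mem_iUnion.mp x.2
      simp only [Set.mem_iUnion, Set.mem_univ, iff_true]
      exact ⟨i, hi⟩
    have hembB : ∀ i, Pool.Agent.Lib.MP_caca3f_an.Ext.EmbedsWithDistortion (B i) D' := by
      intro i
      obtain ⟨H, i1, i2, i3, f, s, hs, hf⟩ := hemb i
      exact ⟨H, i1, i2, i3, fun x => f ⟨x.1.1, x.2⟩, s, hs, fun x y => hf ⟨x.1.1, x.2⟩ ⟨y.1.1, y.2⟩⟩
    exact Pool.Agent.Lib.MP_caca3f_an.Ext.union_embeds k hk B D' hD'1 hcov hembB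
  have hcont : Filter.Tendsto (fun ε : ℝ => ENNReal.ofReal (ub (D + ε) k))
      (nhdsWithin 0 (Set.Ioi 0)) (nhds (ENNReal.ofReal (ub D k))) := by
    apply ENNReal.tendsto_ofReal
    have hc : Continuous (fun ε : ℝ => ub (D + ε) k) := by
      unfold ub
      apply Continuous.mul (by fun_prop)
      apply Continuous.rpow continuous_const (by fun_prop)
      intro x; left; exact hk0.ne'
    have h0 := hc.tendsto 0
    simp only [add_zero] at h0
    exact h0.mono_left nhdsWithin_le_nhds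
  exact ge_of_tendsto hcont (by
    filter_upwards [self_mem_nhdsWithin] with ε hε
    exact key ε hε)

/-- the lower bound for the classes of slightly smaller distortion -/
theorem lower_aux (n D : ℝ) (hn : 1 ≤ n) (hnD : n < D) (k : ℕ) (hk : 1 ≤ k) (ϑ : ℝ) (hϑ : 0 < ϑ) :
    ENNReal.ofReal (Pool.Agent.Lib.MP_caca3f_an.Sharp.gg n k / (1 + ϑ) / (1 + ϑ) - ϑ)
      ≤ U.{u} D k := by
  classical
  obtain ⟨X, _, A, hcov, hA, hlow⟩ :=
    Pool.Agent.Lib.MP_caca3f_an.Sharp.sharp_space n D hn hnD k hk ϑ hϑ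
  let _ : MetricSpace (ULift.{u} X) := MetricSpace.induced ULift.down ULift.down_injective
    inferInstance
  have hdist : ∀ p q : ULift.{u} X, dist p q = dist p.down q.down := fun p q => rfl
  let A' : Fin k → Set (ULift.{u} X) := fun i => {x | x.down ∈ A i}
  have hA' : ∀ i, c2 (A' i) ≤ ENNReal.ofReal D := by
    intro i
    apply c2_le (by linarith)
    obtain ⟨H, _, _, f, s0, hs0, hf⟩ := hA i
    obtain ⟨K, i1, i2, i3, F, hF⟩ := Pool.Agent.Lib.MP_caca3f_an.Sharp.transfer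
      (fun x : A' i => f x.1.down)
    refine ⟨K, i1, i2, i3, F, s0, hs0, fun x y => ?_⟩
    rw [hF]
    exact hf x.1.down x.2 y.1.down y.2
  have hcov' : ∀ x, x ∈ ⋃ i, A' i := fun x => by
    obtain ⟨i, hi⟩ := hcov x.down
    exact Set.mem_iUnion.mpr ⟨i, hi⟩
  refine le_trans ?_ (le_iSup_of_le (ULift.{u} X) (le_iSup_of_le _
    (le_iSup_of_le A' (le_iSup_of_le hA' le_rfl))))
  refine le_iInf fun D' => le_iInf fun hD' => le_iInf fun hemb => ?_
  apply ENNReal.ofReal_le_ofReal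
  obtain ⟨K, i1, i2, i3, f, s0, hs0, hf⟩ := hemb
  obtain ⟨K', j1, j2, j3, F, hF⟩ := Pool.Agent.Lib.MP_caca3f_an.Sharp.transfer
    (fun x : X => f ⟨ULift.up x, hcov' _⟩)
  apply hlow K' F s0 D' hs0 (by linarith)
  · intro x y
    rw [hF]
    exact (hf ⟨ULift.up x, hcov' _⟩ ⟨ULift.up y, hcov' _⟩).1
  · intro x y
    rw [hF]
    exact (hf ⟨ULift.up x, hcov' _⟩ ⟨ULift.up y, hcov' _⟩).2

theorem lower_n (n D : ℝ) (hn : 1 ≤ n) (hnD : n < D) (k : ℕ) (hk : 1 ≤ k) :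
    ENNReal.ofReal (Pool.Agent.Lib.MP_caca3f_an.Sharp.gg n k) ≤ U.{u} D k := by
  set g := Pool.Agent.Lib.MP_caca3f_an.Sharp.gg n k with hg
  have hc2 : ContinuousAt (fun ϑ : ℝ => g / (1 + ϑ) / (1 + ϑ) - ϑ) 0 := by
    apply ContinuousAt.sub _ continuousAt_id
    apply ContinuousAt.div _ (by fun_prop) (by norm_num)
    apply ContinuousAt.div continuousAt_const (by fun_prop) (by norm_num)
  have hlim : Filter.Tendsto (fun ϑ : ℝ => ENNReal.ofReal (g / (1 + ϑ) / (1 + ϑ) - ϑ))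
      (nhdsWithin 0 (Set.Ioi 0)) (nhds (ENNReal.ofReal g)) := by
    apply ENNReal.tendsto_ofReal
    have h3 := hc2.tendsto
    rw [add_zero, div_one, div_one, sub_zero] at h3
    exact h3.mono_left nhdsWithin_le_nhds
  apply le_of_tendsto hlim
  filter_upwards [self_mem_nhdsWithin] with ϑ h4
  exact lower_aux n D hn hnD k hk ϑ h4

theorem one_le_U (D : ℝ) (hD : 1 ≤ D) (k : ℕ) : 1 ≤ U.{u} D k := by
  refine le_trans ?_ (le_iSup_of_le PUnit.{u+1} (le_iSup_of_le inferInstance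
    (le_iSup_of_le (fun _ => ∅) (le_iSup_of_le ?_ le_rfl))))
  · refine le_iInf fun D' => le_iInf fun hD' => le_iInf fun _ => ?_
    rw [← ENNReal.ofReal_one]
    exact ENNReal.ofReal_le_ofReal hD'
  · intro i
    apply c2_le hD
    exact ⟨EuclideanSpace ℝ PUnit.{u+1}, inferInstance, inferInstance, inferInstance,
      fun _ => 0, 1, one_pos, fun x => (Set.notMem_empty x.1 x.2).elim⟩

theorem lower (D : ℝ) (hD : 1 ≤ D) (k : ℕ) (hk : 1 ≤ k) :
    ENNReal.ofReal (∏ i ∈ Finset.range k, ((i : ℝ) + D) / ((i : ℝ) + 1)) ≤ U.{u} D k := by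
  rcases hD.eq_or_lt with rfl | hD
  · have : ∏ i ∈ Finset.range k, ((i : ℝ) + 1) / ((i : ℝ) + 1) = 1 := by
      apply Finset.prod_eq_one; intro i _
      exact div_self (by positivity)
    rw [this, ENNReal.ofReal_one]
    exact one_le_U 1 le_rfl k
  · have hc : Continuous (fun n : ℝ => ∏ i ∈ Finset.range k, ((i : ℝ) + n) / ((i : ℝ) + 1)) := by
      fun_prop
    have hlim : Filter.Tendsto
        (fun n : ℝ => ENNReal.ofReal (∏ i ∈ Finset.range k, ((i : ℝ) + n) / ((i : ℝ) + 1)))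
        (nhdsWithin D (Set.Iio D))
        (nhds (ENNReal.ofReal (∏ i ∈ Finset.range k, ((i : ℝ) + D) / ((i : ℝ) + 1)))) :=
      (ENNReal.tendsto_ofReal (hc.tendsto D)).mono_left nhdsWithin_le_nhds
    apply le_of_tendsto hlim
    have e1 : ∀ᶠ n in nhdsWithin D (Set.Iio D), 1 < n := nhdsWithin_le_nhds (lt_mem_nhds hD)
    filter_upwards [e1, self_mem_nhdsWithin] with n h1 h2
    rw [← Pool.Agent.Lib.MP_caca3f_an.Sharp.gg_prod]
    exact lower_n n D h1.le h2 k hk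

theorem lower' (D : ℝ) (hD : 1 ≤ D) (k : ℕ) (hk : 1 ≤ k) :
    (k : ℝ) ^ (D - 1) / Real.Gamma D ≤ ∏ i ∈ Finset.range k, ((i : ℝ) + D) / ((i : ℝ) + 1) := by
  rw [← Pool.Agent.Lib.MP_caca3f_an.Sharp.gg_prod]
  exact Pool.Agent.Lib.MP_caca3f_an.Sharp.gg_ge hD k hk

/-- the upper bound of the optimal order -/
theorem upper_opt (D : ℝ) (hD : 1 < D) : ∃ W : ℝ, 1 ≤ W ∧ ∀ k : ℕ, 1 ≤ k →
    U.{u} D k ≤ ENNReal.ofReal (W * (k : ℝ) ^ (D - 1)) := by
  obtain ⟨W, hW, hmain⟩ := Pool.Agent.Lib.MP_caca3f_an.Opt.union_embeds_sharp.{u} D hD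
  refine ⟨W, hW, fun k hk => ?_⟩
  refine iSup_le fun X => iSup_le fun _ => iSup_le fun A => iSup_le fun hA => ?_
  have hk1 : (1 : ℝ) ≤ k := by exact_mod_cast hk
  have h1 : 1 ≤ W * (k : ℝ) ^ (D - 1) :=
    one_le_mul_of_one_le_of_one_le hW (Real.one_le_rpow hk1 (by linarith))
  apply c2_le h1
  set B : Fin k → Set (⋃ i, A i : Set X) := fun i => {x | x.1 ∈ A i} with hB
  have hcov : ⋃ i, B i = Set.univ := by
    ext x
    obtain ⟨i, hi⟩ := Set.mem_iUnion.mp x.2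
    simp only [Set.mem_iUnion, Set.mem_univ, iff_true]
    exact ⟨i, hi⟩
  have hembB : ∀ i, Pool.Agent.Lib.MP_caca3f_an.Ext.EmbedsWithDistortion (B i) D := by
    intro i
    apply Pool.Agent.Lib.MP_caca3f_an.Opt.attain D hD.le
    intro D' hD'
    obtain ⟨H, i1, i2, i3, f, s, hs, hf⟩ := embeds_of_c2_lt ((hA i).trans_lt
      ((ENNReal.ofReal_lt_ofReal_iff (by linarith)).mpr hD'))
    exact ⟨H, i1, i2, i3, fun x => f ⟨x.1.1, x.2⟩, s, hs, fun x y => hf ⟨x.1.1, x.2⟩ ⟨y.1.1, y.2⟩⟩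
  exact hmain k hk B hcov hembB

/-- The growth of `U D k` in `k`. For every `D > 1` the order is `k^(D-1)`; for all `D ≥ 1`
there are explicit bounds which agree up to the factor `(1 + log k)^6`. -/
theorem result :
    (∀ D : ℝ, 1 < D → ∃ C : ℝ, 0 < C ∧ ∀ k : ℕ, 1 ≤ k →
      ENNReal.ofReal ((k : ℝ) ^ (D - 1) / Real.Gamma D) ≤ U.{u} D k ∧
      U.{u} D k ≤ ENNReal.ofReal (C * (k : ℝ) ^ (D - 1))) ∧
    (∀ D : ℝ, 1 ≤ D → ∀ k : ℕ, 1 ≤ k →
      (k : ℝ) ^ (D - 1) / Real.Gamma D ≤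
        ∏ i ∈ Finset.range k, ((i : ℝ) + D) / ((i : ℝ) + 1) ∧
      ENNReal.ofReal (∏ i ∈ Finset.range k, ((i : ℝ) + D) / ((i : ℝ) + 1)) ≤ U.{u} D k ∧
      U.{u} D k ≤
        ENNReal.ofReal (2 * 10 ^ 8 * D ^ 7 * (1 + Real.log k) ^ 6 * (k : ℝ) ^ (D - 1))) := by
  refine ⟨fun D hD => ?_, fun D hD k hk => ⟨lower' D hD k hk, lower D hD k hk, upper D hD k hk⟩⟩
  obtain ⟨W, hW, h⟩ := upper_opt.{u} D hD
  exact ⟨W, by linarith, fun k hk => ⟨(ENNReal.ofReal_le_ofReal (lower' D hD.le k hk)).trans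
    (lower D hD.le k hk), h k hk⟩⟩

end Pool.Agent.Results.MP_caca3f_an.OptimalGrowth
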